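import Pool.Agent.W_MP_10444e_gt.CH

/-!
The transfinite construction under the continuum hypothesis.
-/

set_option autoImplicit false

namespace Pool.Agent.W_MP_10444e_gt

open Set MeasureTheory Filter

lemma exists_rec {ι : Type*} [LinearOrder ι] [WellFoundedLT ι] {α : Type*}
    (P : (i : ι) → ((j : ι) → j < i → α) → α → Prop) (h : ∀ i prev, ∃ a, P i prev a) :
    ∃ r : ι → α, ∀ i, P i (fun j _ => r j) (r i) := by
  classical
  let r : ι → α := (wellFounded_lt (α := ι)).fix fun i prev => Classical.choose (h i prev)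
  have hr : ∀ i, r i = Classical.choose (h i fun j _ => r j) := fun i =>
    WellFounded.fix_eq _ _ i
  refine ⟨r, fun i => ?_⟩
  rw [hr i]
  exact Classical.choose_spec (h i fun j _ => r j)

lemma card_null : Cardinal.mk {t : Set ℝ // MeasurableSet t ∧ volume t = 0} ≤
    Cardinal.continuum := by
  have h1 : Cardinal.mk {t : Set ℝ | MeasurableSet t} ≤ Cardinal.continuum := by
    have h2 := MeasurableSpace.cardinal_measurableSet_le_continuum (α := ℝ)
      (s := ⋃ (a : ℚ), {Iio (a : ℝ)}) ?_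
    · rw [← Real.borel_eq_generateFrom_Iio_rat] at h2
      rwa [BorelSpace.measurable_eq (α := ℝ)]
    · have : (⋃ (a : ℚ), {Iio (a : ℝ)} : Set (Set ℝ)).Countable :=
        countable_iUnion fun a => countable_singleton _
      exact (Cardinal.le_aleph0_iff_set_countable.2 this).trans Cardinal.aleph0_le_continuum
  refine le_trans ?_ h1
  refine Cardinal.mk_le_of_injective (f := fun t => (⟨t.1, t.2.1⟩ : {t : Set ℝ | MeasurableSet t}))
    ?_
  intro s t hst
  exact Subtype.ext (congrArg (fun u : {t : Set ℝ | MeasurableSet t} => u.1) hst)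

theorem exists_sierpinski (hCH : Cardinal.continuum.{0} = Cardinal.aleph 1) :
    ∃ S : Set ℝ, (∀ N : Set ℝ, volume N = 0 → (S ∩ N).Countable) ∧
      (∀ x ∈ S, ∀ y ∈ S, x + y ∉ dya) ∧ ∀ z ∉ dya, ∃ x ∈ S, ∃ y ∈ S, x + y = z := by
  classical
  let ι : Type := (Cardinal.aleph 1 : Cardinal.{0}).ord.ToType
  let Q : Type := {z : ℝ // z ∉ dya} × {t : Set ℝ // MeasurableSet t ∧ volume t = 0}
  have hQ : Cardinal.mk Q ≤ Cardinal.mk ι := by
    have h1 : Cardinal.mk ι = Cardinal.continuum := by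
      rw [hCH]; exact Cardinal.mk_ord_toType _
    have h2 : Cardinal.mk {z : ℝ // z ∉ dya} ≤ Cardinal.continuum :=
      (Cardinal.mk_subtype_le _).trans Cardinal.mk_real.le
    rw [h1]
    calc Cardinal.mk Q = Cardinal.mk {z : ℝ // z ∉ dya} *
          Cardinal.mk {t : Set ℝ // MeasurableSet t ∧ volume t = 0} := by
            simp [Q, Cardinal.mk_prod]
      _ ≤ Cardinal.continuum * Cardinal.continuum := mul_le_mul' h2 card_null
      _ = Cardinal.continuum := Cardinal.continuum_mul_self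
  obtain ⟨z₀, hz₀, _⟩ := exists_avoid fun _ => 0
  have : Nonempty Q := ⟨⟨⟨z₀, hz₀⟩, ⟨∅, MeasurableSet.empty, measure_empty⟩⟩⟩
  obtain ⟨emb⟩ := (Cardinal.le_def _ _).1 hQ
  let q : ι → Q := Function.invFun emb
  have hq : Function.Surjective q := Function.invFun_surjective emb.injective
  have hcount : ∀ i : ι, (Iio i).Countable := by
    intro i
    have := Cardinal.mk_Iio_toType_ord_lt i
    rw [← Cardinal.le_aleph0_iff_set_countable]
    exact Cardinal.lt_aleph_one_iff.1 this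
  have hcount' : ∀ i : ι, (Iic i).Countable := by
    intro i
    rw [← Iio_insert]
    exact (hcount i).insert i
  let P : (i : ι) → ((j : ι) → j < i → ℝ × ℝ) → ℝ × ℝ → Prop := fun i prev p =>
    p.1 + p.2 = (q i).1.1 ∧ (∀ j ∈ Iic i, p.1 ∉ (q j).2.1 ∧ p.2 ∉ (q j).2.1) ∧
      p.1 + p.1 ∉ dya ∧ p.2 + p.2 ∉ dya ∧
      ∀ j (hj : j ∈ Iio i), (p.1 + (prev j hj).1 ∉ dya ∧ p.1 + (prev j hj).2 ∉ dya) ∧
        (p.2 + (prev j hj).1 ∉ dya ∧ p.2 + (prev j hj).2 ∉ dya)
  have hcd : ∀ f : ℝ → ℝ, Function.Injective f → ∀ᵐ x ∂(volume : Measure ℝ), f x ∉ dya :=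
    fun f hf => (dya_countable.preimage hf).ae_notMem volume
  have hP : ∀ i prev, ∃ p, P i prev p := by
    intro i prev
    have h1 : ∀ᵐ a ∂(volume : Measure ℝ), ∀ j ∈ Iic i,
        a ∉ (q j).2.1 ∧ (q i).1.1 - a ∉ (q j).2.1 := by
      refine (ae_ball_iff (hcount' i)).2 fun j _ => ?_
      have h2 : ∀ᵐ a ∂(volume : Measure ℝ), a ∉ (q j).2.1 :=
        measure_eq_zero_iff_ae_notMem.1 (q j).2.2.2
      have h3 : ∀ᵐ a ∂(volume : Measure ℝ), (q i).1.1 - a ∉ (q j).2.1 :=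
        (Measure.measurePreserving_sub_left volume (q i).1.1).quasiMeasurePreserving.ae h2
      exact h2.and h3
    have h2 : ∀ᵐ a ∂(volume : Measure ℝ), a + a ∉ dya :=
      hcd _ fun x y hxy => by linarith
    have h3 : ∀ᵐ a ∂(volume : Measure ℝ), ((q i).1.1 - a) + ((q i).1.1 - a) ∉ dya :=
      hcd _ fun x y hxy => by linarith
    have h4 : ∀ᵐ a ∂(volume : Measure ℝ), ∀ j (hj : j ∈ Iio i),
        (a + (prev j hj).1 ∉ dya ∧ a + (prev j hj).2 ∉ dya) ∧
        (((q i).1.1 - a) + (prev j hj).1 ∉ dya ∧ ((q i).1.1 - a) + (prev j hj).2 ∉ dya) := by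
      refine (ae_ball_iff (hcount i)).2 fun j hj => ?_
      refine ((hcd _ ?_).and (hcd _ ?_)).and ((hcd _ ?_).and (hcd _ ?_)) <;>
      · intro x y hxy
        dsimp at hxy
        linarith
    obtain ⟨a, ha1, ha2, ha3, ha4⟩ := (h1.and (h2.and (h3.and h4))).exists
    exact ⟨(a, (q i).1.1 - a), by simp, ha1, ha2, ha3, ha4⟩
  obtain ⟨r, hr⟩ := exists_rec P hP
  refine ⟨range (fun i => (r i).1) ∪ range (fun i => (r i).2), ?_, ?_, ?_⟩
  · intro N hN
    obtain ⟨i, hi⟩ := hq (⟨z₀, hz₀⟩, ⟨toMeasurable volume N, measurableSet_toMeasurable _ _,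
      by rw [measure_toMeasurable, hN]⟩)
    refine (((hcount i).image fun j => (r j).1).union
      ((hcount i).image fun j => (r j).2)).mono ?_
    have hsub : N ⊆ (q i).2.1 := by rw [hi]; exact subset_toMeasurable _ _
    rintro x ⟨hx, hxN⟩
    rcases hx with ⟨j, rfl⟩ | ⟨j, rfl⟩
    · left
      refine ⟨j, ?_, rfl⟩
      by_contra hj
      exact ((hr j).2.1 i (mem_Iic.2 (not_lt.1 hj))).1 (hsub hxN)
    · right
      refine ⟨j, ?_, rfl⟩
      by_contra hj
      exact ((hr j).2.1 i (mem_Iic.2 (not_lt.1 hj))).2 (hsub hxN)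
  · rintro x hx y hy
    rcases hx with ⟨i, rfl⟩ | ⟨i, rfl⟩ <;> rcases hy with ⟨j, rfl⟩ | ⟨j, rfl⟩ <;>
      rcases lt_trichotomy i j with hij | rfl | hij
    · rw [add_comm]; exact ((hr j).2.2.2.2 i hij).1.1
    · exact (hr i).2.2.1
    · exact ((hr i).2.2.2.2 j hij).1.1
    · rw [add_comm]; exact ((hr j).2.2.2.2 i hij).2.1
    · show (r i).1 + (r i).2 ∉ dya
      rw [(hr i).1]; exact (q i).1.2
    · exact ((hr i).2.2.2.2 j hij).1.2
    · rw [add_comm]; exact ((hr j).2.2.2.2 i hij).1.2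
    · show (r i).2 + (r i).1 ∉ dya
      rw [add_comm, (hr i).1]; exact (q i).1.2
    · exact ((hr i).2.2.2.2 j hij).2.1
    · rw [add_comm]; exact ((hr j).2.2.2.2 i hij).2.2
    · exact (hr i).2.2.2.1
    · exact ((hr i).2.2.2.2 j hij).2.2
  · intro z hz
    obtain ⟨i, hi⟩ := hq (⟨z, hz⟩, ⟨∅, MeasurableSet.empty, measure_empty⟩)
    refine ⟨(r i).1, Or.inl ⟨i, rfl⟩, (r i).2, Or.inr ⟨i, rfl⟩, ?_⟩
    rw [(hr i).1, hi]

theorem exists_ch_set (hCH : Cardinal.continuum.{0} = Cardinal.aleph 1) :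
    ∃ S : Set ℝ, Sel S (fin S) ∧ ¬ Sel (pw S 2) (small (pw S 2)) := by
  obtain ⟨S, h1, h2, h3⟩ := exists_sierpinski hCH
  exact ⟨S, sierpinski_ufin h1, not_menger_square h2 h3⟩

end Pool.Agent.W_MP_10444e_gt
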