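import Pool.Agent.W_MP_10444e_gt.Forward

/-!
If every set `G (Ψ '' X)`, with `Ψ` continuous on `X`, is Menger, then all finite powers of `X`
are Menger.
-/

set_option autoImplicit false

namespace Pool.Agent.W_MP_10444e_gt

open Set

/-- A countable set of cut points off `X`. -/
lemma exists_cuts (X : Set ℝ) : ∃ e : ℕ → Option ℝ,
    (∀ n d, e n = some d → d ∉ X) ∧
    (∀ a b x, a < x → x < b → x ∉ X → ∃ n d, e n = some d ∧ a < d ∧ d < b) ∧
    (∀ x ∉ X, ∀ y, x < y → Ioo x y ⊆ X → ∃ n, e n = some x) ∧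
    (∀ x ∉ X, ∀ y, y < x → Ioo y x ⊆ X → ∃ n, e n = some x) := by
  classical
  obtain ⟨t, htc, htd⟩ := TopologicalSpace.exists_countable_dense (Xᶜ : Set ℝ)
  set D : Set ℝ := (Subtype.val '' t ∪ {x ∈ Xᶜ | nhdsWithin x (Xᶜ ∩ Ioi x) = ⊥}) ∪
    {x ∈ Xᶜ | nhdsWithin x (Xᶜ ∩ Iio x) = ⊥} with hD
  have hDc : D.Countable :=
    ((htc.image _).union countable_setOfPred_isolated_right_within).union
      countable_setOfPred_isolated_left_within
  have hDX : ∀ d ∈ D, d ∉ X := by
    rintro d ((⟨z, _, rfl⟩ | h) | h)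
    · exact z.2
    · exact h.1
    · exact h.1
  letI : Encodable D := hDc.toEncodable
  have hen : ∀ d ∈ D, ∃ n, (Encodable.decode (α := D) n).map Subtype.val = some d := by
    intro d hd
    exact ⟨Encodable.encode (⟨d, hd⟩ : D), by rw [Encodable.encodek]; rfl⟩
  refine ⟨fun n => (Encodable.decode (α := D) n).map Subtype.val, ?_, ?_, ?_, ?_⟩
  · intro n d h
    obtain ⟨z, _, rfl⟩ := Option.map_eq_some_iff.1 h
    exact hDX _ z.2
  · intro a b x hax hxb hx
    have hopen : IsOpen ((Subtype.val : (Xᶜ : Set ℝ) → ℝ) ⁻¹' Ioo a b) :=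
      isOpen_Ioo.preimage continuous_subtype_val
    obtain ⟨z, hz, hzt⟩ := htd.inter_open_nonempty _ hopen ⟨⟨x, hx⟩, hax, hxb⟩
    obtain ⟨n, hn⟩ := hen z (Or.inl (Or.inl ⟨z, hzt, rfl⟩))
    exact ⟨n, z, hn, hz.1, hz.2⟩
  · intro x hx y hxy hsub
    refine hen x (Or.inl (Or.inr ⟨hx, ?_⟩))
    have : (Xᶜ ∩ Ioi x) ∩ Iio y = ∅ := by
      ext w
      simp only [mem_inter_iff, mem_compl_iff, mem_Ioi, mem_Iio, mem_empty_iff_false,
        iff_false]
      rintro ⟨⟨h1, h2⟩, h3⟩
      exact h1 (hsub ⟨h2, h3⟩)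
    rw [← Filter.empty_mem_iff_bot, ← this]
    exact Filter.inter_mem self_mem_nhdsWithin (mem_nhdsWithin_of_mem_nhds (Iio_mem_nhds hxy))
  · intro x hx y hxy hsub
    refine hen x (Or.inr ⟨hx, ?_⟩)
    have : (Xᶜ ∩ Iio x) ∩ Ioi y = ∅ := by
      ext w
      simp only [mem_inter_iff, mem_compl_iff, mem_Ioi, mem_Iio, mem_empty_iff_false,
        iff_false]
      rintro ⟨⟨h1, h2⟩, h3⟩
      exact h1 (hsub ⟨h3, h2⟩)
    rw [← Filter.empty_mem_iff_bot, ← this]
    exact Filter.inter_mem self_mem_nhdsWithin (mem_nhdsWithin_of_mem_nhds (Ioi_mem_nhds hxy))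

/-- The cut map. -/
noncomputable def cut (e : ℕ → Option ℝ) (x : ℝ) (n : ℕ) : Bool :=
  (e n).elim false fun d => decide (d < x)

lemma cut_some {e : ℕ → Option ℝ} {n : ℕ} {d : ℝ} (h : e n = some d) (x : ℝ) :
    cut e x n = decide (d < x) := by
  simp [cut, h]

lemma continuousOn_cut {e : ℕ → Option ℝ} {X : Set ℝ} (he : ∀ n d, e n = some d → d ∉ X) :
    ContinuousOn (cut e) X := by
  rw [continuousOn_pi]
  intro n x hx
  rcases hn : e n with _ | d
  · have : (fun y => cut e y n) = fun _ => false := by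
      funext y; simp [cut, hn]
    rw [this]
    exact continuousWithinAt_const
  · have hdx : d ≠ x := by
      rintro rfl
      exact he n _ hn hx
    refine ContinuousAt.continuousWithinAt ?_
    have : (fun y => cut e y n) = fun y => decide (d < y) := by
      funext y; exact cut_some hn y
    rw [this]
    rcases lt_or_gt_of_ne hdx with h | h
    · have hev : (fun y => decide (d < y)) =ᶠ[nhds x] fun _ => true := by
        filter_upwards [Ioi_mem_nhds h] with y hy
        simpa using hy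
      exact (continuousAt_congr hev).2 continuousAt_const
    · have hev : (fun y => decide (d < y)) =ᶠ[nhds x] fun _ => false := by
        filter_upwards [Iio_mem_nhds h] with y hy
        simpa using le_of_lt hy
      exact (continuousAt_congr hev).2 continuousAt_const

/-- Decoding of lists of booleans. -/
def dec (j : ℕ) : List Bool := (Encodable.decode j).getD []

/-- The characteristic function of the set of codes of initial segments. -/
def brn (z : ℕ → Bool) (j : ℕ) : ℕ :=
  if List.ofFn (fun i : Fin (dec j).length => z i) = dec j then 1 else 0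

lemma continuous_brn : Continuous brn := by
  refine continuous_pi fun j => ?_
  have h1 : Continuous fun (z : ℕ → Bool) (i : Fin (dec j).length) => z i :=
    continuous_pi fun i => continuous_apply _
  have h2 : Continuous fun (y : Fin (dec j).length → Bool) =>
      if List.ofFn y = dec j then (1 : ℕ) else 0 := continuous_of_discreteTopology
  exact h2.comp h1

/-- The code of the initial segment of length `n`. -/
def seg (z : ℕ → Bool) (n : ℕ) : ℕ := Encodable.encode (List.ofFn fun i : Fin n => z i)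

lemma dec_seg (z : ℕ → Bool) (n : ℕ) : dec (seg z n) = List.ofFn fun i : Fin n => z i := by
  unfold dec seg
  rw [Encodable.encodek]
  rfl

lemma brn_seg_iff (z z' : ℕ → Bool) (n : ℕ) :
    1 ≤ brn z' (seg z n) ↔ ∀ i < n, z' i = z i := by
  have hgen : ∀ l : List Bool, (l = List.ofFn fun i : Fin n => z i) →
      ((1 ≤ if List.ofFn (fun i : Fin l.length => z' i) = l then 1 else 0) ↔
        ∀ i < n, z' i = z i) := by
    rintro l hl
    have hlen : l.length = n := by rw [hl, List.length_ofFn]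
    subst hlen
    constructor
    · intro h i hi
      split_ifs at h with h'
      · have h3 := h'.trans hl
        have := List.ofFn_injective h3
        exact congrFun this ⟨i, hi⟩
      · exact absurd h (by norm_num)
    · intro h
      rw [if_pos]
      conv_rhs => rw [hl]
      congr 1
      funext i
      exact h i i.2
  exact hgen _ (dec_seg z n)

lemma seg_injective (z : ℕ → Bool) : Function.Injective (seg z) := by
  intro a b h
  have := Encodable.encode_injective h
  have h2 := congrArg List.length this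
  simpa using h2

/-- If initial segments of `z` are eventually captured by finitely many branches then `z` is one
of them. -/
lemma mem_of_captured {z : ℕ → Bool} {F : Finset (ℕ → ℕ)} {Z : Set (ℕ → Bool)}
    (hF : (↑F : Set (ℕ → ℕ)) ⊆ brn '' Z)
    (h : ∀ᶠ m in Filter.atTop, brn z m ≤ F.sup fun h => h m) : z ∈ Z := by
  have htend : Filter.Tendsto (seg z) Filter.atTop Filter.atTop := by
    have := (seg_injective z).tendsto_cofinite
    rwa [Nat.cofinite_eq_atTop] at this
  have h1 := htend.eventually h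
  have h2 : ∀ᶠ n in Filter.atTop, ∃ y ∈ F, 1 ≤ y (seg z n) := by
    filter_upwards [h1] with n hn
    have h3 : 1 ≤ brn z (seg z n) := (brn_seg_iff z z n).2 fun _ _ => rfl
    have h4 : 0 < F.sup fun h => h (seg z n) := lt_of_lt_of_le h3 hn
    rw [Finset.lt_sup_iff] at h4
    exact h4
  by_contra hz
  have h5 : ∀ y ∈ F, ∀ᶠ n in Filter.atTop, ¬ 1 ≤ y (seg z n) := by
    intro y hy
    obtain ⟨z', hz', rfl⟩ := hF hy
    have hne : z' ≠ z := by rintro rfl; exact hz hz'
    obtain ⟨i, hi⟩ := Function.ne_iff.1 hne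
    filter_upwards [Filter.eventually_gt_atTop i] with n hn h6
    exact hi ((brn_seg_iff z z' n).1 h6 i hn)
  have h6 := (Finset.eventually_all F).2 h5
  obtain ⟨n, hn1, hn2⟩ := (h2.and h6).exists
  obtain ⟨y, hy, hy1⟩ := hn1
  exact hn2 y hy hy1

/-- The pieces of `X`. -/
def piece (X : Set ℝ) (m : ℕ) : Set ℝ :=
  {x ∈ X | |x| ≤ m ∧ (∀ a ∉ X, a < x → Ioc a x ⊆ X → 1 / ((m : ℝ) + 1) ≤ x - a) ∧
    ∀ a ∉ X, x < a → Ico x a ⊆ X → 1 / ((m : ℝ) + 1) ≤ a - x}

lemma eventually_piece {X : Set ℝ} {x : ℝ} (hx : x ∈ X) :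
    ∀ᶠ m : ℕ in Filter.atTop, x ∈ piece X m := by
  have h1 : ∀ᶠ m : ℕ in Filter.atTop, |x| ≤ m :=
    (tendsto_natCast_atTop_atTop (R := ℝ)).eventually_ge_atTop |x|
  have hlim : ∀ ε : ℝ, 0 < ε → ∀ᶠ m : ℕ in Filter.atTop, 1 / ((m : ℝ) + 1) ≤ ε := by
    intro ε hε
    exact (tendsto_one_div_add_atTop_nhds_zero_nat (𝕜 := ℝ)).eventually_le_const hε
  have h2 : ∀ᶠ m : ℕ in Filter.atTop,
      ∀ a ∉ X, a < x → Ioc a x ⊆ X → 1 / ((m : ℝ) + 1) ≤ x - a := by
    by_cases h : ∃ a, a ∉ X ∧ a < x ∧ Ioc a x ⊆ X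
    · obtain ⟨a, ha, hax, hsub⟩ := h
      filter_upwards [hlim (x - a) (sub_pos.2 hax)] with m hm a' ha' hax' hsub'
      rcases lt_trichotomy a a' with hlt | rfl | hlt
      · exact absurd (hsub ⟨hlt, hax'.le⟩) ha'
      · exact hm
      · exact absurd (hsub' ⟨hlt, hax.le⟩) ha
    · refine Filter.Eventually.of_forall fun m a ha hax hsub => ?_
      exact absurd ⟨a, ha, hax, hsub⟩ h
  have h3 : ∀ᶠ m : ℕ in Filter.atTop,
      ∀ a ∉ X, x < a → Ico x a ⊆ X → 1 / ((m : ℝ) + 1) ≤ a - x := by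
    by_cases h : ∃ a, a ∉ X ∧ x < a ∧ Ico x a ⊆ X
    · obtain ⟨a, ha, hax, hsub⟩ := h
      filter_upwards [hlim (a - x) (sub_pos.2 hax)] with m hm a' ha' hax' hsub'
      rcases lt_trichotomy a a' with hlt | rfl | hlt
      · exact absurd (hsub' ⟨hax.le, hlt⟩) ha
      · exact hm
      · exact absurd (hsub ⟨hax'.le, hlt⟩) ha'
    · refine Filter.Eventually.of_forall fun m a ha hax hsub => ?_
      exact absurd ⟨a, ha, hax, hsub⟩ h
  filter_upwards [h1, h2, h3] with m hm1 hm2 hm3
  exact ⟨hx, hm1, hm2, hm3⟩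

/-- The compact sets. -/
def KK (X : Set ℝ) (e : ℕ → Option ℝ) (m : ℕ) : Set (ℝ × (ℕ → Bool)) :=
  closure ((fun x => (x, cut e x)) '' piece X m)

lemma isCompact_KK (X : Set ℝ) (e : ℕ → Option ℝ) (m : ℕ) : IsCompact (KK X e m) := by
  refine IsCompact.closure_of_subset
    (K := Icc (-(m : ℝ)) m ×ˢ (univ : Set (ℕ → Bool))) (isCompact_Icc.prod isCompact_univ) ?_
  rintro _ ⟨x, hx, rfl⟩
  exact ⟨abs_le.1 hx.2.1, mem_univ _⟩

lemma KK_mem {X : Set ℝ} {e : ℕ → Option ℝ}
    (he1 : ∀ n d, e n = some d → d ∉ X)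
    (he2 : ∀ a b x, a < x → x < b → x ∉ X → ∃ n d, e n = some d ∧ a < d ∧ d < b)
    (he3 : ∀ x ∉ X, ∀ y, x < y → Ioo x y ⊆ X → ∃ n, e n = some x)
    (he4 : ∀ x ∉ X, ∀ y, y < x → Ioo y x ⊆ X → ∃ n, e n = some x)
    {m : ℕ} {x : ℝ} {z : ℕ → Bool} (h : (x, z) ∈ KK X e m) (hz : z ∈ cut e '' X) : x ∈ X := by
  obtain ⟨y, hy, rfl⟩ := hz
  by_contra hx
  have hxy : x ≠ y := by rintro rfl; exact hx hy
  -- approximants
  have happ : ∀ (W : Set ℝ), IsOpen W → x ∈ W → ∀ n, ∃ x' ∈ piece X m, x' ∈ W ∧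
      cut e x' n = cut e y n := by
    intro W hW hxW n
    have hopen : IsOpen (W ×ˢ {w : ℕ → Bool | w n = cut e y n}) := by
      refine hW.prod ?_
      exact IsOpen.preimage (t := ({cut e y n} : Set Bool))
        (continuous_apply n : Continuous fun w : ℕ → Bool => w n) (isOpen_discrete _)
    obtain ⟨p, hp1, x', hx', rfl⟩ := mem_closure_iff.1 h _ hopen ⟨hxW, rfl⟩
    exact ⟨x', hx', hp1.1, hp1.2⟩
  have hmpos : (0 : ℝ) < 1 / ((m : ℝ) + 1) := by positivity
  rcases lt_or_gt_of_ne hxy with hlt | hlt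
  · -- `x < y`
    have hsub : Ioo x y ⊆ X := by
      intro w hw
      by_contra hwX
      obtain ⟨n, d, hn, hd1, hd2⟩ := he2 x y w hw.1 hw.2 hwX
      obtain ⟨x', _, hx'W, hc⟩ := happ (Iio d) isOpen_Iio hd1 n
      rw [cut_some hn, cut_some hn, decide_eq_decide] at hc
      exact absurd (hc.2 hd2) (not_lt.2 (le_of_lt hx'W))
    obtain ⟨n, hn⟩ := he3 x hx y hlt hsub
    obtain ⟨x', hx', hx'W, hc⟩ := happ (Ioo (x - 1) (min y (x + 1 / ((m : ℝ) + 1))))
      isOpen_Ioo ⟨by linarith, lt_min hlt (by linarith)⟩ n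
    rw [cut_some hn, cut_some hn, decide_eq_decide] at hc
    have hxx' : x < x' := hc.2 hlt
    have h1 := hx'.2.2.1 x hx hxx' (by
      intro w hw
      rcases eq_or_lt_of_le hw.2 with rfl | hw2
      · exact hx'.1
      · exact hsub ⟨hw.1, lt_trans hw2 (lt_of_lt_of_le hx'W.2 (min_le_left _ _))⟩)
    have h2 := lt_of_lt_of_le hx'W.2 (min_le_right _ _)
    linarith
  · -- `y < x`
    have hsub : Ioo y x ⊆ X := by
      intro w hw
      by_contra hwX
      obtain ⟨n, d, hn, hd1, hd2⟩ := he2 y x w hw.1 hw.2 hwX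
      obtain ⟨x', _, hx'W, hc⟩ := happ (Ioi d) isOpen_Ioi hd2 n
      rw [cut_some hn, cut_some hn, decide_eq_decide] at hc
      exact absurd (hc.1 hx'W) (not_lt.2 (le_of_lt hd1))
    obtain ⟨n, hn⟩ := he4 x hx y hlt hsub
    obtain ⟨x', hx', hx'W, hc⟩ := happ (Ioo (max y (x - 1 / ((m : ℝ) + 1))) (x + 1))
      isOpen_Ioo ⟨max_lt hlt (by linarith), by linarith⟩ n
    rw [cut_some hn, cut_some hn, decide_eq_decide] at hc
    have hxx' : x' < x := by
      rcases lt_trichotomy x x' with h' | rfl | h'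
      · exact absurd (hc.1 h') (not_lt.2 hlt.le)
      · exact absurd hx'.1 hx
      · exact h'
    have h1 := hx'.2.2.2 x hx hxx' (by
      intro w hw
      rcases eq_or_lt_of_le hw.1 with rfl | hw2
      · exact hx'.1
      · exact hsub ⟨lt_trans (lt_of_le_of_lt (le_max_left _ _) hx'W.1) hw2, hw.2⟩)
    have h2 := lt_of_le_of_lt (le_max_right _ _) hx'W.1
    linarith

/-- The combined map. -/
def Th {k : ℕ} (w : Fin k → ℝ × (ℕ → Bool)) (j : ℕ) : ℕ :=
  Finset.univ.sup fun i => brn (w i).2 j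

lemma continuous_Th {k : ℕ} : Continuous (Th (k := k)) := by
  refine continuous_pi fun j => ?_
  have h1 : Continuous fun (w : Fin k → ℝ × (ℕ → Bool)) (i : Fin k) => brn (w i).2 j :=
    continuous_pi fun i =>
      (continuous_apply j).comp (continuous_brn.comp (continuous_snd.comp (continuous_apply i)))
  have h2 : Continuous fun (y : Fin k → ℕ) => Finset.univ.sup fun i => y i :=
    continuous_of_discreteTopology
  exact h2.comp h1

theorem backward {X : Set ℝ}
    (h : ∀ f : ℝ → ℕ → ℕ, ContinuousOn f X → Sel (G (f '' X)) (small (G (f '' X)))) (k : ℕ) :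
    Sel (pw X k) (small (pw X k)) := by
  classical
  rcases Nat.eq_zero_or_pos k with rfl | hk
  · intro U hUo hUc
    -- the power is finite
    rcases (pw X 0).eq_empty_or_nonempty with he | ⟨x, hx⟩
    · refine ⟨fun _ => ∅, fun n => by simp, ?_⟩
      rintro A ⟨hA, _⟩
      refine ⟨0, ?_⟩
      rw [he] at hA
      exact hA.trans (empty_subset _)
    · have : ∀ n, ∃ u ∈ U n, x ∈ u := fun n => hUc n hx
      choose u hu hxu using this
      refine ⟨fun n => {u n}, fun n => by simpa using hu n, ?_⟩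
      rintro A ⟨hA, _⟩
      refine ⟨0, fun y _ => ?_⟩
      have : y = x := Subsingleton.elim _ _
      subst this
      exact ⟨u 0, by simp, hxu 0⟩
  · obtain ⟨e, he1, he2, he3, he4⟩ := exists_cuts X
    have hcut := continuousOn_cut he1
    have hΨ : ContinuousOn (fun x => brn (cut e x)) X := continuous_brn.comp_continuousOn hcut
    set Y : Set (ℕ → ℕ) := (fun x => brn (cut e x)) '' X with hY
    have hK : ∀ m, IsCompact {w : Fin k → ℝ × (ℕ → Bool) | ∀ i, w i ∈ KK X e m} := by
      intro m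
      have := isCompact_univ_pi fun _ : Fin k => isCompact_KK X e m
      convert this using 1
      ext w; simp
    refine Sel.transfer (T := fun _ => ℕ → ℕ) (S := fun _ => G Y) (𝒜 := fun _ => small (G Y))
      (fun _ => h _ hΨ)
      (fun m g => (fun w i => (w i).1) ''
        {w : Fin k → ℝ × (ℕ → Bool) | (∀ i, w i ∈ KK X e m) ∧ Th w = g}) ?_ ?_ ?_ ?_
    · intro m g _
      refine IsCompact.image ?_ ?_
      · have : {w : Fin k → ℝ × (ℕ → Bool) | (∀ i, w i ∈ KK X e m) ∧ Th w = g} =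
            {w : Fin k → ℝ × (ℕ → Bool) | ∀ i, w i ∈ KK X e m} ∩ Th ⁻¹' {g} := rfl
        rw [this]
        exact (hK m).inter_right (isClosed_singleton.preimage continuous_Th)
      · exact continuous_pi fun i => continuous_fst.comp (continuous_apply i)
    · rintro m g hg _ ⟨w, ⟨hw, rfl⟩, rfl⟩ i
      obtain ⟨F, _, hFY, hF⟩ := hg
      refine KK_mem he1 he2 he3 he4 (hw i) ?_
      refine mem_of_captured (F := F) ?_ ?_
      · refine hFY.trans ?_
        rintro _ ⟨x, hx, rfl⟩
        exact ⟨cut e x, ⟨x, hx, rfl⟩, rfl⟩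
      · filter_upwards [hF] with j hj
        refine le_trans ?_ hj
        exact Finset.le_sup (f := fun i => brn (w i).2 j) (Finset.mem_univ i)
    · intro m g _ W hW hgW
      set C : Set (Fin k → ℝ × (ℕ → Bool)) := {w | ∀ i, w i ∈ KK X e m} ∩
        (fun (w : Fin k → ℝ × (ℕ → Bool)) i => (w i).1) ⁻¹' Wᶜ with hC
      have hp : Continuous (fun (w : Fin k → ℝ × (ℕ → Bool)) i => (w i).1) :=
        continuous_pi fun i => continuous_fst.comp (continuous_apply i)
      have hCc : IsCompact C := (hK m).inter_right (hW.isClosed_compl.preimage hp)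
      have hCl : IsClosed (Th '' C) := (hCc.image continuous_Th).isClosed
      refine ⟨(Th '' C)ᶜ, hCl.isOpen_compl, ?_, ?_⟩
      · rintro ⟨w, hw, rfl⟩
        exact hw.2 (hgW ⟨w, ⟨hw.1, rfl⟩, rfl⟩)
      · rintro g' ⟨hg', _⟩ _ ⟨w, ⟨hw, rfl⟩, rfl⟩
        by_contra hn
        exact hg' ⟨w, ⟨hw, hn⟩, rfl⟩
    · rintro A ⟨hAX, hAs⟩
      rcases A.eq_empty_or_nonempty with rfl | ⟨x, hx⟩
      · exact ⟨0, ∅, ⟨empty_subset _, subsingleton_empty⟩, empty_subset _, empty_subset _⟩
      · have hxX := hAX hx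
        have hev : ∀ᶠ m : ℕ in Filter.atTop, ∀ i, x i ∈ piece X m :=
          Filter.eventually_all.2 fun i => eventually_piece (hxX i)
        obtain ⟨m, hm⟩ := hev.exists
        set w : Fin k → ℝ × (ℕ → Bool) := fun i => (x i, cut e (x i)) with hw
        have hwK : ∀ i, w i ∈ KK X e m := fun i => subset_closure ⟨x i, hm i, rfl⟩
        have hgG : Th w ∈ G Y := by
          refine ⟨Finset.univ.image fun i => brn (cut e (x i)), ?_, ?_, ?_⟩
          · exact ⟨_, Finset.mem_image_of_mem _ (Finset.mem_univ (⟨0, hk⟩ : Fin k))⟩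
          · intro y hy
            obtain ⟨i, _, rfl⟩ := Finset.mem_image.1 (Finset.mem_coe.1 hy)
            exact ⟨x i, hxX i, rfl⟩
          · refine Filter.Eventually.of_forall fun j => ?_
            rw [Finset.sup_image]
            exact le_rfl
        refine ⟨m, {Th w}, ⟨singleton_subset_iff.2 hgG, subsingleton_singleton⟩,
          singleton_subset_iff.2 hgG, ?_⟩
        intro y hy
        have : y = x := hAs hy hx
        subst this
        exact mem_iUnion₂.2 ⟨Th w, rfl, w, ⟨hwK, rfl⟩, rfl⟩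

end Pool.Agent.W_MP_10444e_gt
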