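import Pool.Agent.W_MP_10444e_gt.Forward

/-!
Under the continuum hypothesis there is a set of reals with the property `U_fin(O, Ω)` whose
square is not Menger.
-/

set_option autoImplicit false

namespace Pool.Agent.W_MP_10444e_gt

open Set MeasureTheory Filter

lemma finite_sub {T : Type*} [TopologicalSpace T] {K : Set T} (hK : IsCompact K)
    {U : Set (Set T)} (hUo : ∀ u ∈ U, IsOpen u) (hKU : K ⊆ ⋃₀ U) :
    ∃ F : Finset (Set T), (↑F : Set (Set T)) ⊆ U ∧ K ⊆ ⋃₀ (↑F : Set (Set T)) := by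
  classical
  obtain ⟨t, ht, htf, htc⟩ := hK.elim_finite_subcover_image
    (b := U) (c := id) hUo
    (by
      intro x hx
      obtain ⟨u, hu, hxu⟩ := hKU hx
      exact mem_iUnion₂.2 ⟨u, hu, hxu⟩)
  refine ⟨htf.toFinset, by simpa using ht, ?_⟩
  intro x hx
  obtain ⟨u, hu, hxu⟩ := mem_iUnion₂.1 (htc hx)
  exact ⟨u, by simpa using hu, hxu⟩

lemma countable_exhaust {S : Set ℝ} (hS : S.Countable) :
    ∃ t : ℕ → Finset ℝ, (∀ n, (↑(t n) : Set ℝ) ⊆ S) ∧ ∀ x ∈ S, ∀ᶠ n in atTop, x ∈ t n := by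
  classical
  rcases S.eq_empty_or_nonempty with rfl | hne
  · exact ⟨fun _ => ∅, by simp, by simp⟩
  · obtain ⟨f, rfl⟩ := hS.exists_eq_range hne
    refine ⟨fun n => (Finset.range n).image f, ?_, ?_⟩
    · intro n x hx
      obtain ⟨i, _, rfl⟩ := Finset.mem_image.1 (Finset.mem_coe.1 hx)
      exact ⟨i, rfl⟩
    · rintro _ ⟨i, rfl⟩
      filter_upwards [eventually_gt_atTop i] with n hn
      exact Finset.mem_image_of_mem _ (Finset.mem_range.2 hn)

theorem sierpinski_ufin {S : Set ℝ} (hS : ∀ N : Set ℝ, volume N = 0 → (S ∩ N).Countable) :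
    Sel S (fin S) := by
  classical
  intro U hUo hUc
  have hWo : ∀ n, IsOpen (⋃₀ U n) := fun n => isOpen_sUnion (hUo n)
  -- compact approximations
  have hK : ∀ n : ℕ, ∃ K ⊆ ⋃₀ U n ∩ Icc (-(n : ℝ)) n, IsCompact K ∧
      volume ((⋃₀ U n ∩ Icc (-(n : ℝ)) n) \ K) < (1 / 2 : ENNReal) ^ n := by
    intro n
    refine MeasurableSet.exists_isCompact_sdiff_lt ((hWo n).measurableSet.inter measurableSet_Icc)
      ?_ ?_
    · exact ((measure_mono inter_subset_right).trans_lt measure_Icc_lt_top).ne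
    · exact pow_ne_zero _ (by norm_num)
  choose K hKsub hKc hKv using hK
  have hsum : ∑' n, volume ((⋃₀ U n ∩ Icc (-(n : ℝ)) n) \ K n) ≠ ⊤ := by
    refine ne_top_of_le_ne_top (b := ∑' n : ℕ, (1 / 2 : ENNReal) ^ n) ?_
      (ENNReal.tsum_le_tsum fun n => (hKv n).le)
    rw [ENNReal.tsum_geometric]
    norm_num
  have hae := ae_eventually_notMem hsum
  set N : Set ℝ := {x | ¬ ∀ᶠ n in atTop, x ∉ (⋃₀ U n ∩ Icc (-(n : ℝ)) n) \ K n} with hN
  have hN0 : volume N = 0 := hae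
  obtain ⟨t, ht1, ht2⟩ := countable_exhaust (hS N hN0)
  have hF : ∀ n, ∃ F : Finset (Set ℝ), (↑F : Set (Set ℝ)) ⊆ U n ∧
      K n ∪ ↑(t n) ⊆ ⋃₀ (↑F : Set (Set ℝ)) := by
    intro n
    refine finite_sub ((hKc n).union (t n).finite_toSet.isCompact) (hUo n) ?_
    refine union_subset ((hKsub n).trans inter_subset_left) ?_
    exact fun x hx => hUc n (ht1 n hx).1
  choose F hFU hFK using hF
  refine ⟨F, hFU, ?_⟩
  rintro A ⟨hAS, hAf⟩
  have hev : ∀ x ∈ S, ∀ᶠ n in atTop, x ∈ K n ∪ ↑(t n) := by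
    intro x hx
    by_cases hxN : x ∈ N
    · filter_upwards [ht2 x ⟨hx, hxN⟩] with n hn
      exact Or.inr hn
    · have h1 : ∀ᶠ n in atTop, x ∉ (⋃₀ U n ∩ Icc (-(n : ℝ)) n) \ K n := not_not.1 hxN
      have h2 : ∀ᶠ n : ℕ in atTop, |x| ≤ n :=
        (tendsto_natCast_atTop_atTop (R := ℝ)).eventually_ge_atTop |x|
      filter_upwards [h1, h2] with n hn1 hn2
      left
      by_contra hn
      exact hn1 ⟨⟨hUc n hx, abs_le.1 hn2⟩, hn⟩
  have hall : ∀ᶠ n in atTop, ∀ x ∈ A, x ∈ K n ∪ ↑(t n) :=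
    (hAf.eventually_all).2 fun x hx => hev x (hAS hx)
  obtain ⟨n, hn⟩ := hall.exists
  exact ⟨n, fun x hx => hFK n (hn x hx)⟩

/-- Dyadic rationals. -/
def dya : Set ℝ := {z | ∃ N : ℕ, ∃ k : ℤ, 2 ^ N * z = k}

lemma dya_countable : dya.Countable := by
  have : dya ⊆ range fun p : ℕ × ℤ => (p.2 : ℝ) / 2 ^ p.1 := by
    rintro z ⟨N, k, h⟩
    refine ⟨(N, k), ?_⟩
    show (k : ℝ) / 2 ^ N = z
    rw [← h]
    field_simp
  exact (countable_range _).mono this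

lemma dya_add {x y : ℝ} (hx : x ∈ dya) (hy : y ∈ dya) : x + y ∈ dya := by
  obtain ⟨N, k, h⟩ := hx
  obtain ⟨M, l, h'⟩ := hy
  refine ⟨N + M, k * 2 ^ M + l * 2 ^ N, ?_⟩
  push_cast
  rw [← h, ← h', pow_add]
  ring

/-- Sums of `n` numbers each of which is zero or a negative power of two. -/
def Sg : ℕ → Set ℝ
  | 0 => {0}
  | n + 1 => {z | ∃ x ∈ Sg n, ∃ y ∈ insert (0 : ℝ) (range fun a : ℕ => (1 / 2 : ℝ) ^ a),
      x + y = z}

lemma isCompact_Sg (n : ℕ) : IsCompact (Sg n) := by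
  induction n with
  | zero => exact isCompact_singleton
  | succ n ih =>
    have h1 : IsCompact (insert (0 : ℝ) (range fun a : ℕ => (1 / 2 : ℝ) ^ a)) :=
      (tendsto_pow_atTop_nhds_zero_of_lt_one (by norm_num) (by norm_num)).isCompact_insert_range
    have h2 := (ih.prod h1).image (f := fun p : ℝ × ℝ => p.1 + p.2) (by fun_prop)
    convert h2 using 1
    ext z
    constructor
    · rintro ⟨x, hx, y, hy, rfl⟩
      exact ⟨(x, y), ⟨hx, hy⟩, rfl⟩
    · rintro ⟨⟨x, y⟩, ⟨hx, hy⟩, rfl⟩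
      exact ⟨x, hx, y, hy, rfl⟩

lemma Sg_dya {n : ℕ} {z : ℝ} (hz : z ∈ Sg n) : z ∈ dya := by
  induction n generalizing z with
  | zero =>
    have : z = 0 := hz
    exact ⟨0, 0, by simp [this]⟩
  | succ n ih =>
    obtain ⟨x, hx, y, hy, rfl⟩ := hz
    refine dya_add (ih hx) ?_
    rcases hy with rfl | ⟨a, rfl⟩
    · exact ⟨0, 0, by simp⟩
    · refine ⟨a, 1, ?_⟩
      rw [← mul_pow]
      norm_num

/-- Closed neighbourhoods of `Sg n`. -/
def Cg (n j : ℕ) : Set ℝ := {z | ∃ x ∈ Sg n, ∃ y ∈ Icc (0 : ℝ) ((1 / 2) ^ j), x + y = z}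

lemma isCompact_Cg (n j : ℕ) : IsCompact (Cg n j) := by
  have h2 := ((isCompact_Sg n).prod (isCompact_Icc (a := (0 : ℝ)) (b := (1 / 2) ^ j))).image
    (f := fun p : ℝ × ℝ => p.1 + p.2) (by fun_prop)
  convert h2 using 1
  ext z
  constructor
  · rintro ⟨x, hx, y, hy, rfl⟩
    exact ⟨(x, y), ⟨hx, hy⟩, rfl⟩
  · rintro ⟨⟨x, y⟩, ⟨hx, hy⟩, rfl⟩
    exact ⟨x, hx, y, hy, rfl⟩

lemma Cg_anti (n : ℕ) {i j : ℕ} (h : i ≤ j) : Cg n j ⊆ Cg n i := by
  rintro z ⟨x, hx, y, hy, rfl⟩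
  exact ⟨x, hx, y, ⟨hy.1, hy.2.trans (pow_le_pow_of_le_one (by norm_num) (by norm_num) h)⟩, rfl⟩

lemma exists_notMem_Cg {n : ℕ} {z : ℝ} (hz : z ∉ dya) : ∃ j, z ∉ Cg n j := by
  by_contra hcon
  push Not at hcon
  choose x hx y hy hxy using hcon
  have hy0 : Tendsto y atTop (nhds 0) :=
    squeeze_zero (fun j => (hy j).1) (fun j => (hy j).2)
      (tendsto_pow_atTop_nhds_zero_of_lt_one (by norm_num) (by norm_num))
  have hx0 : Tendsto x atTop (nhds z) := by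
    have : x = fun j => z - y j := by
      funext j; linarith [hxy j]
    rw [this]
    simpa using tendsto_const_nhds.sub hy0
  have := (isCompact_Sg n).isClosed.mem_of_tendsto hx0 (Eventually.of_forall hx)
  exact hz (Sg_dya this)

lemma exists_avoid (g : ℕ → ℕ) : ∃ z : ℝ, z ∉ dya ∧ ∀ n, z ∈ Cg n (g n) := by
  -- exponents
  let a : ℕ → ℕ := fun n => ∑ i ∈ Finset.range (n + 1), (g i + 2)
  have ha1 : ∀ n, g n + 1 ≤ a n := by
    intro n
    have : g n + 2 ≤ a n := Finset.single_le_sum (f := fun i => g i + 2)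
      (fun _ _ => Nat.zero_le _) (Finset.mem_range.2 (Nat.lt_succ_self n))
    omega
  have ha2 : ∀ n, a n + 2 ≤ a (n + 1) := by
    intro n
    have : a (n + 1) = a n + (g (n + 1) + 2) := Finset.sum_range_succ _ _
    omega
  have ha3 : ∀ n m, a n + m ≤ a (n + m) := by
    intro n m
    induction m with
    | zero => exact le_rfl
    | succ m ih =>
      have := ha2 (n + m)
      show a n + (m + 1) ≤ a (n + m + 1)
      omega
  have ha4 : ∀ n, n ≤ a n := fun n => by have := ha3 0 n; rw [zero_add] at this; omega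
  have hle : ∀ n m, (1 / 2 : ℝ) ^ a (m + n) ≤ (1 / 2) ^ a n * (1 / 2) ^ m := by
    intro n m
    rw [← pow_add]
    refine pow_le_pow_of_le_one (by norm_num) (by norm_num) ?_
    rw [add_comm m n]
    exact ha3 n m
  have hgeo : ∀ n, HasSum (fun m : ℕ => (1 / 2 : ℝ) ^ a n * (1 / 2) ^ m) ((1 / 2) ^ a n * 2) :=
    fun n => hasSum_geometric_two.mul_left _
  have hs : ∀ n, Summable fun m => (1 / 2 : ℝ) ^ a (m + n) := fun n =>
    Summable.of_nonneg_of_le (fun m => by positivity) (hle n) (hgeo n).summable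
  have hs0 : Summable fun m => (1 / 2 : ℝ) ^ a m := hs 0
  set z : ℝ := ∑' m, (1 / 2 : ℝ) ^ a m with hz
  have hpart : ∀ n, ∑ m ∈ Finset.range n, (1 / 2 : ℝ) ^ a m ∈ Sg n := by
    intro n
    induction n with
    | zero => simp [Sg]
    | succ n ih =>
      rw [Finset.sum_range_succ]
      exact ⟨_, ih, _, Or.inr ⟨a n, rfl⟩, rfl⟩
  have htail : ∀ n, z = ∑ m ∈ Finset.range n, (1 / 2 : ℝ) ^ a m +
      ∑' m, (1 / 2 : ℝ) ^ a (m + n) := fun n => (hs0.sum_add_tsum_nat_add n).symm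
  have htail0 : ∀ n, 0 < ∑' m, (1 / 2 : ℝ) ^ a (m + n) := fun n =>
    (hs n).tsum_pos (fun m => by positivity) 0 (by positivity)
  have htail1 : ∀ n, ∑' m, (1 / 2 : ℝ) ^ a (m + n) ≤ (1 / 2) ^ a n * 2 := fun n =>
    (hgeo n).tsum_eq ▸ (hs n).tsum_le_tsum (hle n) (hgeo n).summable
  refine ⟨z, ?_, ?_⟩
  · rintro ⟨N, k, hk⟩
    -- use `n = N + 1`
    have hint : ∃ l : ℤ, (2 : ℝ) ^ a N * ∑ m ∈ Finset.range (N + 1), (1 / 2 : ℝ) ^ a m = l := by
      have hmono : ∀ m ∈ Finset.range (N + 1), a m ≤ a N := by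
        intro m hm
        have hm' : m ≤ N := Nat.lt_succ_iff.1 (Finset.mem_range.1 hm)
        have := ha3 m (N - m)
        rw [Nat.add_sub_cancel' hm'] at this
        omega
      refine ⟨∑ m ∈ Finset.range (N + 1), 2 ^ (a N - a m), ?_⟩
      rw [Finset.mul_sum]
      push_cast
      refine Finset.sum_congr rfl fun m hm => ?_
      have h1 := hmono m hm
      have h2 : (2 : ℝ) ^ a N = 2 ^ (a N - a m) * 2 ^ a m := by
        rw [← pow_add]; congr 1; omega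
      rw [h2, mul_assoc, ← mul_pow]
      norm_num
    obtain ⟨l, hl⟩ := hint
    have h1 := htail (N + 1)
    have h2 := htail0 (N + 1)
    have h3 := htail1 (N + 1)
    set T := ∑' m, (1 / 2 : ℝ) ^ a (m + (N + 1)) with hT
    have h4 : (2 : ℝ) ^ a N * T = (2 ^ (a N - N) * k - l : ℤ) := by
      push_cast
      rw [← hl, ← hk]
      have h5 : (2 : ℝ) ^ a N = 2 ^ (a N - N) * 2 ^ N := by
        rw [← pow_add]; congr 1; have := ha4 N; omega
      have h6 : T = z - ∑ m ∈ Finset.range (N + 1), (1 / 2 : ℝ) ^ a m := by linarith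
      rw [h6, mul_sub, h5]
      ring
    have h5 : (0 : ℝ) < 2 ^ a N * T := by positivity
    have h6 : (2 : ℝ) ^ a N * T < 1 := by
      calc (2 : ℝ) ^ a N * T ≤ 2 ^ a N * ((1 / 2) ^ a (N + 1) * 2) :=
            mul_le_mul_of_nonneg_left h3 (by positivity)
        _ ≤ 2 ^ a N * ((1 / 2) ^ (a N + 2) * 2) := by
            refine mul_le_mul_of_nonneg_left (mul_le_mul_of_nonneg_right ?_ (by norm_num))
              (by positivity)
            exact pow_le_pow_of_le_one (by norm_num) (by norm_num) (ha2 N)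
        _ = (2 * (1 / 2)) ^ a N * (1 / 2) := by rw [mul_pow, pow_add]; ring
        _ < 1 := by norm_num
    rw [h4] at h5 h6
    have h7 : (0 : ℤ) < 2 ^ (a N - N) * k - l := by exact_mod_cast h5
    have h8 : (2 : ℤ) ^ (a N - N) * k - l < 1 := by exact_mod_cast h6
    omega
  · intro n
    refine ⟨_, hpart n, _, ⟨(htail0 n).le, ?_⟩, (htail n).symm⟩
    refine (htail1 n).trans ?_
    calc (1 / 2 : ℝ) ^ a n * 2 ≤ (1 / 2) ^ (g n + 1) * 2 :=
          mul_le_mul_of_nonneg_right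
            (pow_le_pow_of_le_one (by norm_num) (by norm_num) (ha1 n)) (by norm_num)
      _ = (1 / 2) ^ g n := by rw [pow_succ]; ring

theorem not_menger_square {S : Set ℝ} (h1 : ∀ x ∈ S, ∀ y ∈ S, x + y ∉ dya)
    (h2 : ∀ z ∉ dya, ∃ x ∈ S, ∃ y ∈ S, x + y = z) : ¬ Sel (pw S 2) (small (pw S 2)) := by
  classical
  intro h
  have hopen : ∀ n : ℕ, ∀ u ∈ range fun j => (fun x : Fin 2 → ℝ => x 0 + x 1) ⁻¹' (Cg n j)ᶜ,
      IsOpen u := by
    rintro n _ ⟨j, rfl⟩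
    exact (isCompact_Cg n j).isClosed.isOpen_compl.preimage (by fun_prop)
  have hcov : ∀ n : ℕ, pw S 2 ⊆
      ⋃₀ range fun j => (fun x : Fin 2 → ℝ => x 0 + x 1) ⁻¹' (Cg n j)ᶜ := by
    intro n x hx
    obtain ⟨j, hj⟩ := exists_notMem_Cg (n := n) (h1 _ (hx 0) _ (hx 1))
    exact ⟨_, ⟨j, rfl⟩, hj⟩
  obtain ⟨F, hFU, hF⟩ := h _ hopen hcov
  have hj : ∀ n, ∃ j, ∀ u ∈ F n, ∀ x ∈ u, x 0 + x 1 ∉ Cg n j := by
    intro n
    have : ∀ u ∈ F n, ∃ j, (fun x : Fin 2 → ℝ => x 0 + x 1) ⁻¹' (Cg n j)ᶜ = u :=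
      fun u hu => hFU n hu
    choose! J hJ using this
    refine ⟨(F n).sup J, fun u hu x hx hxC => ?_⟩
    rw [← hJ u hu] at hx
    exact hx (Cg_anti n (Finset.le_sup hu) hxC)
  choose g hg using hj
  obtain ⟨z, hz, hzC⟩ := exists_avoid g
  obtain ⟨x, hx, y, hy, rfl⟩ := h2 z hz
  have hmem : {![x, y]} ⊆ pw S 2 := by
    rw [singleton_subset_iff]
    intro i
    fin_cases i
    · exact hx
    · exact hy
  obtain ⟨n, hn⟩ := hF {![x, y]} ⟨hmem, subsingleton_singleton⟩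
  obtain ⟨u, hu, hxu⟩ := hn (mem_singleton _)
  exact hg n u hu _ hxu (hzC n)

end Pool.Agent.W_MP_10444e_gt
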