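import Pool.Agent.W_MP_10444e_gt.Transfer

/-!
If all finite powers of `X` are Menger then the set of functions eventually dominated by finite
maxima from a continuous image of `X` has the property `U_fin(O, Ω)`.
-/

set_option autoImplicit false

namespace Pool.Agent.W_MP_10444e_gt

open Set

/-- Functions eventually dominated by the maximum of a nonempty finite subset of `Y`. -/
def G (Y : Set (ℕ → ℕ)) : Set (ℕ → ℕ) :=
  {g | ∃ F : Finset (ℕ → ℕ), F.Nonempty ∧ (↑F : Set (ℕ → ℕ)) ⊆ Y ∧
    ∀ᶠ m in Filter.atTop, g m ≤ F.sup (fun h => h m)}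

/-- Finite powers of `X`. -/
def pw (X : Set ℝ) (k : ℕ) : Set (Fin k → ℝ) := {x | ∀ i, x i ∈ X}

/-- The subsets of `S` with at most one point. -/
def small {T : Type*} (S : Set T) : Set (Set T) := {A | A ⊆ S ∧ A.Subsingleton}

/-- The finite subsets of `S`. -/
def fin {T : Type*} (S : Set T) : Set (Set T) := {A | A ⊆ S ∧ A.Finite}

/-- The box below `h`. -/
def box (h : ℕ → ℕ) : Set (ℕ → ℕ) := {g | ∀ j, g j ≤ h j}

lemma isCompact_box (h : ℕ → ℕ) : IsCompact (box h) := by
  have : box h = Set.pi univ fun j => Set.Iic (h j) := by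
    ext g; simp [box, Pi.le_def]
  rw [this]
  exact isCompact_univ_pi fun j => (Set.finite_Iic _).isCompact

lemma box_open {h : ℕ → ℕ} {W : Set (ℕ → ℕ)} (hW : IsOpen W) (hb : box h ⊆ W) :
    ∃ n, ∀ g ∈ box h, ∀ g' : ℕ → ℕ, (∀ j < n, g' j = g j) → g' ∈ W := by
  have h1 : ∀ g ∈ W, ∃ n, PiNat.cylinder g n ⊆ W := by
    intro g hg
    obtain ⟨s, ⟨x, n, rfl⟩, hgs, hsW⟩ :=
      (PiNat.isTopologicalBasis_cylinders (fun _ : ℕ => ℕ)).exists_subset_of_mem_open hg hW
    refine ⟨n, ?_⟩
    rwa [← PiNat.mem_cylinder_iff_eq.1 hgs] at hsW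
  choose! N hN using h1
  obtain ⟨t, htb, htf, htc⟩ := (isCompact_box h).elim_finite_subcover_image
    (b := box h) (c := fun g => PiNat.cylinder g (N g))
    (fun g _ => PiNat.isOpen_cylinder _ g (N g))
    (fun g hg => mem_iUnion₂.2 ⟨g, hg, PiNat.self_mem_cylinder g (N g)⟩)
  refine ⟨htf.toFinset.sup N, fun g hg g' hgg' => ?_⟩
  obtain ⟨g₀, hg₀, hgg₀⟩ := mem_iUnion₂.1 (htc hg)
  refine hN g₀ (hb (htb hg₀)) ?_
  intro j hj
  have h2 : j < htf.toFinset.sup N :=
    lt_of_lt_of_le hj (Finset.le_sup (f := N) (by simpa using hg₀))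
  rw [hgg' j h2]
  exact hgg₀ j hj

/-- The bound attached to a tuple. -/
def bd (f : ℝ → ℕ → ℕ) {k : ℕ} (m : ℕ) (x : Fin k → ℝ) (j : ℕ) : ℕ :=
  (Finset.univ.sup fun l => f (x l) j) + if j < m then m else 0

theorem forward {X : Set ℝ} (h : ∀ k, Sel (pw X k) (small (pw X k))) {f : ℝ → ℕ → ℕ}
    (hf : ContinuousOn f X) : Sel (G (f '' X)) (fin (G (f '' X))) := by
  classical
  refine Sel.transfer (T := fun i => Fin (i.unpair.1 + 1) → ℝ)
    (S := fun i => pw X (i.unpair.1 + 1)) (𝒜 := fun i => small (pw X (i.unpair.1 + 1)))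
    (fun i => h _) (fun i x => box (bd f i.unpair.2 x)) ?_ ?_ ?_ ?_
  · intro i s _
    exact isCompact_box _
  · intro i x hx g hg
    refine ⟨Finset.univ.image fun l => f (x l), ?_, ?_, ?_⟩
    · exact ⟨f (x 0), Finset.mem_image_of_mem _ (Finset.mem_univ _)⟩
    · intro y hy
      obtain ⟨l, _, rfl⟩ := Finset.mem_image.1 (Finset.mem_coe.1 hy)
      exact ⟨x l, hx l, rfl⟩
    · filter_upwards [Filter.eventually_ge_atTop i.unpair.2] with j hj
      have h1 := hg j
      unfold bd at h1
      rw [if_neg (not_lt.2 hj), add_zero] at h1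
      rw [Finset.sup_image]
      exact h1
  · intro i x hx W hW hxW
    obtain ⟨n, hn⟩ := box_open hW hxW
    have hcyl : ∀ l, ∃ u : Set ℝ, IsOpen u ∧
        f ⁻¹' (PiNat.cylinder (f (x l)) n) ∩ X = u ∩ X := fun l =>
      (continuousOn_iff'.1 hf) _ (PiNat.isOpen_cylinder _ _ _)
    choose u huo hu using hcyl
    refine ⟨Set.pi univ u, isOpen_set_pi finite_univ fun l _ => huo l, ?_, ?_⟩
    · intro l _
      have : x l ∈ f ⁻¹' (PiNat.cylinder (f (x l)) n) ∩ X :=
        ⟨PiNat.self_mem_cylinder _ _, hx l⟩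
      rw [hu l] at this
      exact this.1
    · rintro x' ⟨hx'V, hx'X⟩ g' hg'
      have hag : ∀ l, ∀ j < n, f (x' l) j = f (x l) j := by
        intro l j hj
        have : x' l ∈ u l ∩ X := ⟨hx'V l (mem_univ l), hx'X l⟩
        rw [← hu l] at this
        exact this.1 j hj
      have hbd : ∀ j < n, bd f i.unpair.2 x' j = bd f i.unpair.2 x j := by
        intro j hj
        unfold bd
        congr 1
        exact Finset.sup_congr rfl fun l _ => hag l j hj
      refine hn (fun j => if j < n then g' j else 0) ?_ g' ?_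
      · intro j
        show (if j < n then g' j else 0) ≤ _
        split_ifs with hj
        · rw [← hbd j hj]; exact hg' j
        · exact Nat.zero_le _
      · intro j hj
        show g' j = if j < n then g' j else 0
        rw [if_pos hj]
  · rintro A ⟨hAG, hAf⟩
    rcases A.eq_empty_or_nonempty with rfl | hne
    · exact ⟨0, ∅, ⟨empty_subset _, subsingleton_empty⟩, empty_subset _, empty_subset _⟩
    · -- choose the dominating families
      have hA : ∀ g ∈ A, ∃ F : Finset (ℕ → ℕ), F.Nonempty ∧ (↑F : Set (ℕ → ℕ)) ⊆ f '' X ∧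
          ∃ N, ∀ m ≥ N, g m ≤ F.sup (fun h => h m) := by
        intro g hg
        obtain ⟨F, h1, h2, h3⟩ := hAG hg
        exact ⟨F, h1, h2, Filter.eventually_atTop.1 h3⟩
      choose! F hF1 hF2 N hN using hA
      set B := hAf.toFinset with hB
      have hmemB : ∀ g, g ∈ B ↔ g ∈ A := fun g => by simp [hB]
      set H := B.biUnion F with hH
      have hHX : ∀ y ∈ H, y ∈ f '' X := by
        intro y hy
        obtain ⟨g, hg, hyg⟩ := Finset.mem_biUnion.1 hy
        exact hF2 g ((hmemB g).1 hg) hyg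
      obtain ⟨g₀, hg₀⟩ := hne
      obtain ⟨h₀, hh₀⟩ := hF1 g₀ hg₀
      have hh₀H : h₀ ∈ H := Finset.mem_biUnion.2 ⟨g₀, (hmemB g₀).2 hg₀, hh₀⟩
      choose! pre hpreX hpre using hHX
      set k := H.toList.length with hk
      let y : Fin (k + 1) → ℕ → ℕ := fun l => H.toList.getD l h₀
      have hyH : ∀ l, y l ∈ H := by
        intro l
        show H.toList.getD l h₀ ∈ H
        by_cases hl : (l : ℕ) < H.toList.length
        · rw [List.getD_eq_getElem _ _ hl]
          exact Finset.mem_toList.1 (List.getElem_mem hl)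
        · rw [List.getD_eq_default _ _ (not_lt.1 hl)]
          exact hh₀H
      have hyS : ∀ h ∈ H, ∃ l, y l = h := by
        intro h hh
        obtain ⟨l, hl, hlh⟩ := List.getElem_of_mem (Finset.mem_toList.2 hh)
        refine ⟨⟨l, by omega⟩, ?_⟩
        show H.toList.getD l h₀ = h
        rw [List.getD_eq_getElem _ _ hl, hlh]
      let m := B.sup fun g => N g + ∑ j ∈ Finset.range (N g), g j
      have key : ∃ x : Fin (k + 1) → ℝ, x ∈ pw X (k + 1) ∧ A ⊆ box (bd f m x) := by
        refine ⟨fun l => pre (y l), fun l => hpreX _ (hyH l), ?_⟩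
        intro g hg j
        have hm : N g + ∑ j ∈ Finset.range (N g), g j ≤ m :=
          Finset.le_sup (f := fun g => N g + ∑ j ∈ Finset.range (N g), g j)
            ((hmemB g).2 hg)
        unfold bd
        by_cases hj : j < N g
        · have h1 : g j ≤ ∑ j ∈ Finset.range (N g), g j :=
            Finset.single_le_sum (f := fun j => g j) (fun _ _ => Nat.zero_le _)
              (Finset.mem_range.2 hj)
          rw [if_pos (by omega)]
          omega
        · have h1 := hN g hg j (not_lt.1 hj)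
          refine le_trans h1 (le_trans ?_ (Nat.le_add_right _ _))
          refine Finset.sup_le fun h hh => ?_
          have hhH : h ∈ H := Finset.mem_biUnion.2 ⟨g, (hmemB g).2 hg, hh⟩
          obtain ⟨l, hl⟩ := hyS h hhH
          have : h j = f (pre (y l)) j := by rw [hpre _ (hyH l), hl]
          rw [this]
          exact Finset.le_sup (f := fun l => f (pre (y l)) j) (Finset.mem_univ l)
      have key' : ∀ i : ℕ, i.unpair.1 = k → i.unpair.2 = m →
          ∃ x : Fin (i.unpair.1 + 1) → ℝ, x ∈ pw X (i.unpair.1 + 1) ∧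
            A ⊆ box (bd f i.unpair.2 x) := by
        intro i h1 h2
        rw [h1, h2]
        exact key
      obtain ⟨x, hx, hxA⟩ := key' (Nat.pair k m) (by rw [Nat.unpair_pair])
        (by rw [Nat.unpair_pair])
      refine ⟨Nat.pair k m, {x}, ⟨singleton_subset_iff.2 hx, subsingleton_singleton⟩,
        singleton_subset_iff.2 hx, ?_⟩
      intro g hg
      exact mem_iUnion₂.2 ⟨x, rfl, hxA hg⟩

end Pool.Agent.W_MP_10444e_gt
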