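import Mathlib

/-!
A selection property relative to a family of subsets, and its transfer along countably many
upper semicontinuous compact-valued maps.
-/

set_option autoImplicit false

namespace Pool.Agent.W_MP_10444e_gt

open Set

/-- `Sel S 𝒜`: from every sequence of open covers of `S` one can choose finite subfamilies such
that each member of `𝒜` is covered by one of them. -/
def Sel {T : Type*} [TopologicalSpace T] (S : Set T) (𝒜 : Set (Set T)) : Prop :=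
  ∀ U : ℕ → Set (Set T), (∀ n, ∀ u ∈ U n, IsOpen u) → (∀ n, S ⊆ ⋃₀ U n) →
    ∃ F : ℕ → Finset (Set T), (∀ n, (↑(F n) : Set (Set T)) ⊆ U n) ∧
      ∀ A ∈ 𝒜, ∃ n, A ⊆ ⋃₀ (↑(F n) : Set (Set T))

theorem Sel.transfer {T : ℕ → Type*} [∀ i, TopologicalSpace (T i)] {T' : Type*}
    [TopologicalSpace T'] {S : ∀ i, Set (T i)} {𝒜 : ∀ i, Set (Set (T i))}
    (h : ∀ i, Sel (S i) (𝒜 i)) {S' : Set T'} {𝒜' : Set (Set T')} (Φ : ∀ i, T i → Set T')
    (hcomp : ∀ i, ∀ s ∈ S i, IsCompact (Φ i s)) (hsub : ∀ i, ∀ s ∈ S i, Φ i s ⊆ S')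
    (husc : ∀ i, ∀ s ∈ S i, ∀ W : Set T', IsOpen W → Φ i s ⊆ W →
      ∃ V : Set (T i), IsOpen V ∧ s ∈ V ∧ ∀ s' ∈ V ∩ S i, Φ i s' ⊆ W)
    (hcov : ∀ A' ∈ 𝒜', ∃ i, ∃ A ∈ 𝒜 i, A ⊆ S i ∧ A' ⊆ ⋃ s ∈ A, Φ i s) :
    Sel S' 𝒜' := by
  classical
  intro U hUo hUc
  -- finite subcovers and neighbourhoods
  have step : ∀ n, ∀ i, ∀ s : S i, ∃ (F : Finset (Set T')) (V : Set (T i)),
      (↑F : Set (Set T')) ⊆ U n ∧ IsOpen V ∧ (s : T i) ∈ V ∧
        ∀ s' ∈ V ∩ S i, Φ i s' ⊆ ⋃₀ (↑F : Set (Set T')) := by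
    intro n i s
    obtain ⟨F, hFU, hFc⟩ : ∃ F : Finset (Set T'), (↑F : Set (Set T')) ⊆ U n ∧
        Φ i s ⊆ ⋃₀ (↑F : Set (Set T')) := by
      obtain ⟨t, ht, htf, htc⟩ := (hcomp i s s.2).elim_finite_subcover_image
        (b := U n) (c := id) (fun u hu => hUo n u hu)
        (by
          intro x hx
          obtain ⟨u, hu, hxu⟩ := hUc n (hsub i s s.2 hx)
          exact mem_iUnion₂.2 ⟨u, hu, hxu⟩)
      refine ⟨htf.toFinset, by simpa using ht, ?_⟩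
      intro x hx
      obtain ⟨u, hu, hxu⟩ := mem_iUnion₂.1 (htc hx)
      exact ⟨u, by simpa using hu, hxu⟩
    have hWo : IsOpen (⋃₀ (↑F : Set (Set T'))) :=
      isOpen_sUnion fun u hu => hUo n u (hFU hu)
    obtain ⟨V, hVo, hsV, hV⟩ := husc i s s.2 _ hWo hFc
    exact ⟨F, V, hFU, hVo, hsV, hV⟩
  choose F V hFU hVo hsV hV using step
  -- the covers of `S i`
  have hsel : ∀ i, ∃ G : ℕ → Finset (Set (T i)),
      (∀ j, (↑(G j) : Set (Set (T i))) ⊆ range (V (Nat.pair i j) i)) ∧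
        ∀ A ∈ 𝒜 i, ∃ j, A ⊆ ⋃₀ (↑(G j) : Set (Set (T i))) := by
    intro i
    refine h i (fun j => range (V (Nat.pair i j) i)) ?_ ?_
    · rintro j _ ⟨s, rfl⟩
      exact hVo _ _ _
    · intro j s hs
      exact ⟨_, ⟨⟨s, hs⟩, rfl⟩, hsV (Nat.pair i j) i ⟨s, hs⟩⟩
  choose G hG1 hG2 using hsel
  have hrep : ∀ i j (v : Set (T i)), v ∈ G i j → ∃ s : S i, V (Nat.pair i j) i s = v :=
    fun i j v hv => hG1 i j hv
  choose rep hrep using hrep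
  let F' : ℕ → Finset (Set T') := fun n =>
    (G n.unpair.1 n.unpair.2).attach.biUnion fun v =>
      F (Nat.pair n.unpair.1 n.unpair.2) n.unpair.1 (rep n.unpair.1 n.unpair.2 v.1 v.2)
  refine ⟨F', ?_, ?_⟩
  · intro n u hu
    simp only [F', Finset.coe_biUnion, mem_iUnion] at hu
    obtain ⟨v, _, hv⟩ := hu
    have := hFU (Nat.pair n.unpair.1 n.unpair.2) n.unpair.1
      (rep n.unpair.1 n.unpair.2 v.1 v.2) hv
    rwa [Nat.pair_unpair] at this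
  · intro A' hA'
    obtain ⟨i, A, hA, hAS, hA'A⟩ := hcov A' hA'
    obtain ⟨j, hj⟩ := hG2 i A hA
    refine ⟨Nat.pair i j, ?_⟩
    intro x hx
    obtain ⟨s, hs, hxs⟩ := mem_iUnion₂.1 (hA'A hx)
    obtain ⟨v, hvG, hsv⟩ := hj hs
    have h1 := hV (Nat.pair i j) i (rep i j v hvG) s (by
      rw [hrep i j v hvG]; exact ⟨hsv, hAS hs⟩) hxs
    obtain ⟨u, hu, hxu⟩ := h1
    refine ⟨u, ?_, hxu⟩
    show u ∈ F' (Nat.pair i j)
    simp only [F']
    rw [Nat.unpair_pair]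
    exact Finset.mem_biUnion.2 ⟨⟨v, hvG⟩, Finset.mem_attach _ _, hu⟩

end Pool.Agent.W_MP_10444e_gt
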